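import Mathlib

/-!
# The weak Lebesgue property of `ℓ²(Γ)`

`ℓ²(Γ)` has the weak Lebesgue property if and only if `#Γ < non(SN)`.
-/

namespace Pool.Agent.Results.MP_abad15_an.WLPiffNonSN

open MeasureTheory Set Filter Topology Cardinal

universe u

/-- `x` is the Riemann integral of `f : [0,1] → X`: for every `ε > 0` there is `δ > 0` such that
for every partition `0 = a 0 ≤ a 1 ≤ … ≤ a p = 1` into intervals of length `< δ` and all tags
`t j ∈ [a j, a (j+1)]`, the Riemann sum is within `ε` of `x`. -/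
def HasRiemannIntegral {X : Type u} [NormedAddCommGroup X] [NormedSpace ℝ X]
    (f : unitInterval → X) (x : X) : Prop :=
  ∀ ε : ℝ, 0 < ε → ∃ δ : ℝ, 0 < δ ∧
    ∀ (p : ℕ) (a : ℕ → ℝ) (t : ℕ → unitInterval), a 0 = 0 → a p = 1 →
      (∀ j < p, a j ≤ (t j : ℝ) ∧ (t j : ℝ) ≤ a (j + 1) ∧ a (j + 1) - a j < δ) →
      ‖(∑ j ∈ Finset.range p, (a (j + 1) - a j) • f (t j)) - x‖ < ε

/-- Riemann integrability of `f : [0,1] → X`. -/
def RiemannIntegrable {X : Type u} [NormedAddCommGroup X] [NormedSpace ℝ X]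
    (f : unitInterval → X) : Prop :=
  ∃ x : X, HasRiemannIntegral f x

/-- The weak Lebesgue property: every Riemann integrable function `[0,1] → X` is weakly
continuous almost everywhere. -/
def WLP (X : Type u) [NormedAddCommGroup X] [NormedSpace ℝ X] : Prop :=
  ∀ f : unitInterval → X, RiemannIntegrable f →
    ∀ᵐ t : unitInterval, ContinuousAt (fun s => toWeakSpace ℝ X (f s)) t

/-- Strong measure zero sets of reals (Borel). -/
def StrongMeasureZero (A : Set ℝ) : Prop :=
  ∀ ε : ℕ → ℝ, (∀ n, 0 < ε n) →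
    ∃ a b : ℕ → ℝ, (∀ n, b n - a n < ε n) ∧ A ⊆ ⋃ n, Set.Icc (a n) (b n)

/-- `non(SN)`: the least cardinality of a set of reals that is not of strong measure zero. -/
noncomputable def nonSN : Cardinal.{0} :=
  sInf {c : Cardinal.{0} | ∃ A : Set ℝ, ¬ StrongMeasureZero A ∧ #A = c}

/-! ## Countable unions, the real line is not strong measure zero -/

theorem not_smz_univ : ¬ StrongMeasureZero (Set.univ : Set ℝ) := by
  intro h
  obtain ⟨a, b, hab, hcov⟩ := h (fun n => (1 / 2 : ℝ) ^ n) (fun n => by positivity)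
  have h1 : volume (Set.univ : Set ℝ) ≤ ∑' n, volume (Set.Icc (a n) (b n)) :=
    (measure_mono hcov).trans (measure_iUnion_le _)
  have h2 : ∑' n, volume (Set.Icc (a n) (b n)) ≤ ∑' n : ℕ, ENNReal.ofReal ((1 / 2 : ℝ) ^ n) := by
    refine ENNReal.tsum_le_tsum (fun n => ?_)
    rw [Real.volume_Icc]
    exact ENNReal.ofReal_le_ofReal (hab n).le
  have h3 : ∑' n : ℕ, ENNReal.ofReal ((1 / 2 : ℝ) ^ n) < ⊤ := by
    rw [← ENNReal.ofReal_tsum_of_nonneg (fun n => by positivity)
      (summable_geometric_of_lt_one (by norm_num) (by norm_num))]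
    exact ENNReal.ofReal_lt_top
  rw [Real.volume_univ] at h1
  exact absurd (h1.trans h2) (not_le.mpr h3)

/-- transfer of strong measure zero along a translation -/
theorem smz_of_translate {A : Set ℝ} (s : ℝ) (h : StrongMeasureZero ((fun x => x + s) ⁻¹' A)) :
    StrongMeasureZero A := by
  intro ε hε
  obtain ⟨a, b, hab, hcov⟩ := h ε hε
  refine ⟨fun n => a n + s, fun n => b n + s, fun n => by have := hab n; simp only; linarith, ?_⟩
  intro x hx
  have : x - s ∈ (fun x => x + s) ⁻¹' A := by simpa using hx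
  obtain ⟨n, hn⟩ := mem_iUnion.mp (hcov this)
  exact mem_iUnion.mpr ⟨n, by constructor <;> linarith [hn.1, hn.2]⟩

/-- countable unions -/
theorem smz_iUnion {A : ℕ → Set ℝ} (h : ∀ m, StrongMeasureZero (A m)) :
    StrongMeasureZero (⋃ m, A m) := by
  intro ε hε
  choose a b hab hcov using fun m => h m (fun i => ε (Nat.pair m i)) (fun i => hε _)
  refine ⟨fun n => a n.unpair.1 n.unpair.2, fun n => b n.unpair.1 n.unpair.2, ?_, ?_⟩
  · intro n
    have := hab n.unpair.1 n.unpair.2
    rwa [Nat.pair_unpair] at this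
  · intro x hx
    obtain ⟨m, hm⟩ := mem_iUnion.mp hx
    obtain ⟨i, hi⟩ := mem_iUnion.mp (hcov m hm)
    refine mem_iUnion.mpr ⟨Nat.pair m i, ?_⟩
    simpa [Nat.unpair_pair] using hi

theorem smz_empty : StrongMeasureZero (∅ : Set ℝ) := by
  intro ε hε
  exact ⟨fun _ => 1, fun _ => 0, fun n => by have := hε n; simp only; linarith, by simp⟩

theorem nonSN_mem : ∃ A : Set ℝ, ¬ StrongMeasureZero A ∧ #A = nonSN :=
  csInf_mem (s := {c : Cardinal.{0} | ∃ A : Set ℝ, ¬ StrongMeasureZero A ∧ #A = c})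
    ⟨_, Set.univ, not_smz_univ, rfl⟩

/-- If `nonSN ≤ #Γ` there is a non strong measure zero subset of `[0,1)` that injects in `Γ`. -/
theorem exists_nonSMZ (Γ : Type u) (h : Cardinal.lift.{u} nonSN ≤ #Γ) :
    ∃ A : Set ℝ, A ⊆ Set.Ico 0 1 ∧ ¬ StrongMeasureZero A ∧ Nonempty (A ↪ Γ) := by
  obtain ⟨A, hA, hcard⟩ := nonSN_mem
  rw [← hcard] at h
  have hinj : Nonempty (A ↪ Γ) := by
    rw [← Cardinal.lift_mk_le']
    simpa using h
  by_contra hcon
  push Not at hcon
  apply hA
  -- pieces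
  let g : ℕ → ℤ := fun n => (Equiv.intEquivNat.symm n)
  have hpiece : ∀ m : ℕ, StrongMeasureZero (A ∩ Set.Ico (g m : ℝ) (g m + 1)) := by
    intro m
    apply smz_of_translate (g m : ℝ)
    by_contra hB
    set B := (fun x : ℝ => x + (g m : ℝ)) ⁻¹' (A ∩ Set.Ico (g m : ℝ) (g m + 1)) with hBdef
    have hsub : B ⊆ Set.Ico 0 1 := by
      intro x hx
      have := hx.2
      constructor <;> [linarith [this.1]; linarith [this.2]]
    have e := hcon B hsub hB
    obtain ⟨ι⟩ := hinj
    apply e.false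
    refine ⟨fun x => ι ⟨x.1 + g m, x.2.1⟩, ?_⟩
    intro x y hxy
    have := ι.injective hxy
    have h2 := congrArg Subtype.val this
    simp only at h2
    exact Subtype.ext (by linarith)
  have := smz_iUnion hpiece
  convert this using 1
  ext x
  simp only [mem_iUnion, mem_inter_iff, mem_Ico]
  constructor
  · intro hx
    refine ⟨Equiv.intEquivNat ⌊x⌋, hx, ?_, ?_⟩
    · simp only [g, Equiv.symm_apply_apply]; exact Int.floor_le x
    · simp only [g, Equiv.symm_apply_apply]; exact Int.lt_floor_add_one x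
  · rintro ⟨m, hx, -⟩; exact hx

/-! ## Part B: the combinatorial construction -/

/-- numbers of intervals of the levels -/
def K (c : ℕ → ℕ) : ℕ → ℕ
  | 0 => 1
  | i + 1 => K c i * (i + 2) ^ (c i)

theorem K_pos (c : ℕ → ℕ) (i : ℕ) : 0 < K c i := by
  induction i with
  | zero => simp [K]
  | succ i ih => simp only [K]; positivity

theorem exists_c (ε : ℕ → ℝ) (hε : ∀ n, 0 < ε n) (i h : ℕ) :
    ∃ c : ℕ, 0 < c ∧ ∀ r < h, 1 / (c : ℝ) < ε (Nat.pair i r) := by
  induction h with
  | zero => exact ⟨1, one_pos, fun r hr => absurd hr (Nat.not_lt_zero r)⟩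
  | succ h ih =>
    obtain ⟨c, hc, hc2⟩ := ih
    obtain ⟨n, hn⟩ := exists_nat_gt (1 / ε (Nat.pair i h))
    refine ⟨max c (n + 1), lt_max_of_lt_left hc, fun r hr => ?_⟩
    have hcpos : (0 : ℝ) < c := by exact_mod_cast hc
    rcases Nat.lt_succ_iff_lt_or_eq.mp hr with h1 | h1
    · refine lt_of_le_of_lt ?_ (hc2 r h1)
      apply one_div_le_one_div_of_le hcpos
      exact_mod_cast le_max_left _ _
    · subst h1
      have he := hε (Nat.pair i r)
      have h2 : 1 / ε (Nat.pair i r) < ((max c (n + 1) : ℕ) : ℝ) := by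
        refine hn.trans_le ?_
        exact_mod_cast (Nat.le_succ n).trans (le_max_right _ _)
      rw [div_lt_iff₀ he] at h2
      rw [div_lt_iff₀ (lt_of_lt_of_le hcpos (by exact_mod_cast le_max_left _ _))]
      linarith

theorem exists_seq (ε : ℕ → ℝ) (hε : ∀ n, 0 < ε n) :
    ∃ c : ℕ → ℕ, ∀ i, 0 < c i ∧ ∀ r < K c i * (i + 4), 1 / (c i : ℝ) < ε (Nat.pair i r) := by
  choose g hg1 hg2 using fun i h => exists_c ε hε i h
  let KK : ℕ → ℕ := fun i => Nat.rec 1 (fun i k => k * (i + 2) ^ (g i (k * (i + 4)))) i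
  have hKK : ∀ i, KK (i + 1) = KK i * (i + 2) ^ (g i (KK i * (i + 4))) := fun i => rfl
  refine ⟨fun i => g i (KK i * (i + 4)), fun i => ?_⟩
  have hK : ∀ i, K (fun i => g i (KK i * (i + 4))) i = KK i := by
    intro i
    induction i with
    | zero => rfl
    | succ i ih => rw [K, ih, hKK]
  rw [hK]
  exact ⟨hg1 _ _, hg2 _ _⟩

/-- number of successors of an interval of level `i` -/
abbrev d (c : ℕ → ℕ) (i : ℕ) : ℕ := (i + 2) ^ (c i)

/-- successors are coded by functions -/
def e (c : ℕ → ℕ) (i : ℕ) : Fin (d c i) ≃ (Fin (c i) → Fin (i + 2)) := finFunctionFinEquiv.symm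

theorem K_succ (c : ℕ → ℕ) (i : ℕ) : K c (i + 1) = K c i * d c i := rfl

theorem card_avoid (c : ℕ → ℕ) (i : ℕ) (y : Fin (c i)) :
    (i + 2) * (Finset.univ.filter (fun r : Fin (d c i) => e c i r y ≠ 0)).card
      = (i + 1) * d c i := by
  classical
  have h1 : (Finset.univ.filter (fun r : Fin (d c i) => e c i r y ≠ 0)).card
      = (Finset.univ.filter (fun g : Fin (c i) → Fin (i + 2) => g y ≠ 0)).card := by
    apply Finset.card_bij (fun r _ => e c i r)
    · intro r hr
      simpa using hr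
    · intro r _ s _ h
      exact (e c i).injective h
    · intro g hg
      exact ⟨(e c i).symm g, by simpa using hg, by simp⟩
  have h2 : (Finset.univ.filter (fun g : Fin (c i) → Fin (i + 2) => g y ≠ 0))
      = Fintype.piFinset (fun j => if j = y then Finset.univ.erase (0 : Fin (i + 2))
          else Finset.univ) := by
    ext g
    simp only [Finset.mem_filter, Finset.mem_univ, true_and, Fintype.mem_piFinset]
    constructor
    · intro h j
      split_ifs with hj
      · subst hj; simpa using h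
      · exact Finset.mem_univ _
    · intro h
      have := h y
      simpa using this
  have h3 : (Finset.univ.filter (fun g : Fin (c i) → Fin (i + 2) => g y ≠ 0)).card
      = (i + 1) * (i + 2) ^ (c i - 1) := by
    rw [h2, Fintype.card_piFinset]
    rw [← Finset.mul_prod_erase _ _ (Finset.mem_univ y)]
    rw [if_pos rfl]
    have : ∏ x ∈ Finset.univ.erase y, (if x = y then Finset.univ.erase (0 : Fin (i + 2))
        else Finset.univ).card = ∏ x ∈ (Finset.univ.erase y : Finset (Fin (c i))), (i + 2) := by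
      apply Finset.prod_congr rfl
      intro x hx
      rw [if_neg (Finset.ne_of_mem_erase hx)]
      simp
    rw [this, Finset.prod_const, Finset.card_erase_of_mem (Finset.mem_univ _),
      Finset.card_erase_of_mem (Finset.mem_univ _)]
    simp
  rw [h1, h3]
  have hc : 0 < c i := y.pos
  have : (i + 2) * ((i + 1) * (i + 2) ^ (c i - 1)) = (i + 1) * ((i + 2) ^ (c i - 1) * (i + 2)) := by
    ring
  rw [this, ← pow_succ, Nat.sub_add_cancel hc]

theorem card_all (c : ℕ → ℕ) (i : ℕ) (B : Finset (Fin (c i))) :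
    (i + 2) ^ B.card * (Finset.univ.filter (fun r : Fin (d c i) => ∀ y ∈ B, e c i r y = 0)).card
      = d c i := by
  classical
  have h1 : (Finset.univ.filter (fun r : Fin (d c i) => ∀ y ∈ B, e c i r y = 0)).card
      = (Finset.univ.filter (fun g : Fin (c i) → Fin (i + 2) => ∀ y ∈ B, g y = 0)).card := by
    apply Finset.card_bij (fun r _ => e c i r)
    · intro r hr
      simpa using hr
    · intro r _ s _ h
      exact (e c i).injective h
    · intro g hg
      exact ⟨(e c i).symm g, by simpa using hg, by simp⟩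
  have h2 : (Finset.univ.filter (fun g : Fin (c i) → Fin (i + 2) => ∀ y ∈ B, g y = 0))
      = Fintype.piFinset (fun j => if j ∈ B then {(0 : Fin (i + 2))} else Finset.univ) := by
    ext g
    simp only [Finset.mem_filter, Finset.mem_univ, true_and, Fintype.mem_piFinset]
    constructor
    · intro h j
      split_ifs with hj
      · simpa using h j hj
      · exact Finset.mem_univ _
    · intro h y hy
      have := h y
      simpa [hy] using this
  have h3 : (Finset.univ.filter (fun g : Fin (c i) → Fin (i + 2) => ∀ y ∈ B, g y = 0)).card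
      = (i + 2) ^ (c i - B.card) := by
    rw [h2, Fintype.card_piFinset]
    have : ∀ x : Fin (c i), (if x ∈ B then {(0 : Fin (i + 2))} else Finset.univ).card
        = if x ∈ B then 1 else (i + 2) := by
      intro x; split_ifs <;> simp
    simp_rw [this]
    rw [Finset.prod_ite]
    simp only [Finset.prod_const_one, one_mul, Finset.prod_const]
    congr 1
    rw [Finset.filter_not, Finset.card_sdiff_of_subset (by simp)]
    simp
  have hB : B.card ≤ c i := by simpa using Finset.card_le_univ B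
  rw [h1, h3, ← pow_add, Nat.add_sub_cancel' hB]

/-- the intervals of level `m` that are admissible for `y` -/
def Adm (c : ℕ → ℕ) (y : ∀ i, Fin (c i)) : ℕ → Finset ℕ
  | 0 => {0}
  | m + 1 => ((Adm c y m) ×ˢ
      (Finset.univ.filter (fun r : Fin (d c m) => e c m r (y m) ≠ 0))).image
        (fun q => q.1 * d c m + q.2)

theorem card_Adm (c : ℕ → ℕ) (y : ∀ i, Fin (c i)) (m : ℕ) :
    (Adm c y m).card * (m + 1) ≤ K c m := by
  induction m with
  | zero => simp [Adm, K]
  | succ m ih =>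
    have h1 : (Adm c y (m + 1)).card ≤ (Adm c y m).card *
        (Finset.univ.filter (fun r : Fin (d c m) => e c m r (y m) ≠ 0)).card := by
      rw [Adm]
      refine Finset.card_image_le.trans ?_
      rw [Finset.card_product]
    have h2 := card_avoid c m (y m)
    rw [K_succ]
    calc (Adm c y (m + 1)).card * (m + 1 + 1)
        ≤ ((Adm c y m).card *
        (Finset.univ.filter (fun r : Fin (d c m) => e c m r (y m) ≠ 0)).card) * (m + 2) :=
          Nat.mul_le_mul_right _ h1
      _ = (Adm c y m).card * ((m + 2) *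
        (Finset.univ.filter (fun r : Fin (d c m) => e c m r (y m) ≠ 0)).card) := by ring
      _ = ((Adm c y m).card * (m + 1)) * d c m := by rw [h2]; ring
      _ ≤ K c m * d c m := Nat.mul_le_mul_right _ ih

theorem Adm_lt (c : ℕ → ℕ) (y : ∀ i, Fin (c i)) (m : ℕ) :
    ∀ σ ∈ Adm c y m, σ < K c m := by
  induction m with
  | zero => intro σ hσ; simp [Adm] at hσ; simp [hσ, K]
  | succ m ih =>
    intro σ hσ
    rw [Adm, Finset.mem_image] at hσ
    obtain ⟨⟨τ, r⟩, hq, rfl⟩ := hσ
    rw [Finset.mem_product] at hq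
    have h1 := ih τ hq.1
    have h2 := r.isLt
    rw [K_succ]
    simp only
    calc τ * d c m + r < τ * d c m + d c m := by omega
      _ = (τ + 1) * d c m := by ring
      _ ≤ K c m * d c m := Nat.mul_le_mul_right _ h1

/-- the intervals of level `m` -/
def J (c : ℕ → ℕ) (m σ : ℕ) : Set ℝ := Set.Icc ((σ : ℝ) / K c m) (((σ : ℝ) + 1) / K c m)

/-- the closed null set attached to `y` -/
def F (c : ℕ → ℕ) (y : ∀ i, Fin (c i)) : Set ℝ := ⋂ m, ⋃ σ ∈ Adm c y m, J c m σ

theorem volume_J (c : ℕ → ℕ) (m σ : ℕ) : volume (J c m σ) = ENNReal.ofReal (1 / K c m) := by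
  rw [J, Real.volume_Icc]; congr 1; ring

theorem J_subset (c : ℕ → ℕ) (m σ : ℕ) :
    J c m σ ⊆ ⋃ r : Fin (d c m), J c (m + 1) (σ * d c m + r) := by
  intro z hz
  have hK : (0 : ℝ) < K c m := by exact_mod_cast K_pos c m
  have hd : (0 : ℝ) < d c m := by
    have : 0 < d c m := by unfold d; positivity
    exact_mod_cast this
  have hdn : 0 < d c m := by exact_mod_cast hd
  have hK' : ((K c (m + 1) : ℕ) : ℝ) = (K c m : ℝ) * (d c m : ℝ) := by
    rw [K_succ]; push_cast; ring
  have hz1 := hz.1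
  have hz2 := hz.2
  rw [div_le_iff₀ hK] at hz1
  rw [le_div_iff₀ hK] at hz2
  set w : ℝ := (z * K c m - σ) * d c m with hw
  have hw0 : 0 ≤ w := mul_nonneg (by linarith) hd.le
  have hw1 : w ≤ d c m := by
    have : z * K c m - σ ≤ 1 := by linarith
    nlinarith
  have key : ∃ r : ℕ, r < d c m ∧ (r : ℝ) ≤ w ∧ w ≤ r + 1 := by
    rcases lt_or_ge ⌊w⌋₊ (d c m) with h | h
    · exact ⟨⌊w⌋₊, h, Nat.floor_le hw0, (Nat.lt_floor_add_one w).le⟩
    · have h1 : (d c m : ℝ) ≤ w := by
        have := Nat.floor_le hw0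
        exact le_trans (by exact_mod_cast h) this
      refine ⟨d c m - 1, by omega, ?_, ?_⟩
      · rw [Nat.cast_sub (by omega)]; push_cast; push_cast at h1; linarith
      · rw [Nat.cast_sub (by omega)]; push_cast; push_cast at hw1; linarith
  obtain ⟨r, hr, hr1, hr2⟩ := key
  refine mem_iUnion.mpr ⟨⟨r, hr⟩, ?_⟩
  unfold J
  rw [hK']
  have hKd : (0 : ℝ) < (K c m : ℝ) * d c m := mul_pos hK hd
  constructor
  · rw [div_le_iff₀ hKd]
    push_cast
    rw [hw] at hr1
    push_cast at hr1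
    nlinarith
  · rw [le_div_iff₀ hKd]
    push_cast
    rw [hw] at hr2
    push_cast at hr2
    nlinarith

theorem J_succ_subset (c : ℕ → ℕ) (m σ : ℕ) (r : Fin (d c m)) :
    J c (m + 1) (σ * d c m + r) ⊆ J c m σ := by
  have hK : (0 : ℝ) < K c m := by exact_mod_cast K_pos c m
  have hd : (0 : ℝ) < d c m := by
    have : 0 < d c m := by unfold d; positivity
    exact_mod_cast this
  have hK' : ((K c (m + 1) : ℕ) : ℝ) = (K c m : ℝ) * (d c m : ℝ) := by
    rw [K_succ]; push_cast; ring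
  have hr : (r : ℝ) + 1 ≤ d c m := by
    have : (r : ℕ) + 1 ≤ d c m := r.isLt
    exact_mod_cast this
  unfold J
  rw [hK']
  apply Set.Icc_subset_Icc
  · rw [div_le_div_iff₀ hK (mul_pos hK hd)]
    push_cast
    have : (0 : ℝ) ≤ (r : ℕ) := Nat.cast_nonneg _
    have h2 : (0 : ℝ) ≤ (r : ℕ) * (K c m : ℝ) := mul_nonneg this hK.le
    nlinarith
  · rw [div_le_div_iff₀ (mul_pos hK hd) hK]
    push_cast
    push_cast at hr
    nlinarith

/-! ## The union of the sets `F c y` is not null -/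

section Tree

variable (c : ℕ → ℕ) (P : Set ℝ)

/-- mass of `P` in an interval of the partition -/
noncomputable def mass (i σ : ℕ) : ℝ := (volume (P ∩ J c i σ)).toReal

theorem vol_lt_top (i σ : ℕ) : volume (P ∩ J c i σ) < ⊤ :=
  lt_of_le_of_lt (measure_mono inter_subset_right) (by rw [volume_J]; exact ENNReal.ofReal_lt_top)

theorem mass_nonneg (i σ : ℕ) : 0 ≤ mass c P i σ := ENNReal.toReal_nonneg

theorem mass_le (i σ : ℕ) : mass c P i σ * K c i ≤ 1 := by
  have hK : (0 : ℝ) < K c i := by exact_mod_cast K_pos c i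
  have h : mass c P i σ ≤ 1 / K c i := by
    unfold mass
    have h1 : volume (P ∩ J c i σ) ≤ ENNReal.ofReal (1 / K c i) := by
      rw [← volume_J c i σ]; exact measure_mono inter_subset_right
    calc (volume (P ∩ J c i σ)).toReal ≤ (ENNReal.ofReal (1 / K c i)).toReal :=
          ENNReal.toReal_mono ENNReal.ofReal_ne_top h1
      _ = 1 / K c i := ENNReal.toReal_ofReal (by positivity)
  calc mass c P i σ * K c i ≤ (1 / K c i) * K c i := mul_le_mul_of_nonneg_right h hK.le
    _ = 1 := by field_simp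

theorem mass_sub (i σ : ℕ) : mass c P i σ ≤ ∑ r : Fin (d c i), mass c P (i + 1) (σ * d c i + r) := by
  unfold mass
  rw [← ENNReal.toReal_sum (fun r _ => (vol_lt_top c P _ _).ne)]
  apply ENNReal.toReal_mono
  · exact (ENNReal.sum_lt_top.mpr (fun r _ => vol_lt_top c P _ _)).ne
  · refine le_trans (measure_mono ?_) (measure_iUnion_fintype_le _ _)
    intro z hz
    obtain ⟨r, hr⟩ := mem_iUnion.mp (J_subset c i σ hz.2)
    exact mem_iUnion.mpr ⟨r, hz.1, hr⟩

/-- the losses allowed at level `i` -/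
noncomputable def dl (i : ℕ) : ℝ := (1 / 2 : ℝ) ^ (i + 3)

open Classical in
/-- the rich successors -/
noncomputable def Succ (i σ : ℕ) : Finset (Fin (d c i)) :=
  Finset.univ.filter (fun r =>
    mass c P i σ * K c i - dl i ≤ mass c P (i + 1) (σ * d c i + r) * K c (i + 1))

theorem card_Succ (i σ : ℕ) : dl i * d c i ≤ (Succ c P i σ).card := by
  classical
  have hdl : 0 < dl i := by unfold dl; positivity
  have hdl1 : dl i ≤ 1 := pow_le_one₀ (by norm_num) (by norm_num)
  have hK : (0 : ℝ) < K c i := by exact_mod_cast K_pos c i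
  have hdn : 0 < d c i := by unfold d; positivity
  have hd : (0 : ℝ) < (d c i : ℕ) := by exact_mod_cast hdn
  have hK' : ((K c (i + 1) : ℕ) : ℝ) = (K c i : ℝ) * ((d c i : ℕ) : ℝ) := by
    rw [K_succ]; exact Nat.cast_mul _ _
  rcases lt_or_ge (mass c P i σ * K c i) (dl i) with h | h
  · have : Succ c P i σ = Finset.univ := by
      apply Finset.filter_true_of_mem
      intro r _
      have h1 := mass_nonneg c P (i + 1) (σ * d c i + r)
      have h2 : (0 : ℝ) ≤ (K c (i + 1) : ℕ) := Nat.cast_nonneg _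
      have h3 := mul_nonneg h1 h2
      linarith
    rw [this, Finset.card_univ, Fintype.card_fin]
    nlinarith
  · set S := Succ c P i σ with hS
    have h1 := mass_sub c P i σ
    have h2 : (∑ r : Fin (d c i), mass c P (i + 1) (σ * d c i + r)) * K c (i + 1)
        ≤ (S.card : ℝ) + (d c i : ℕ) * (mass c P i σ * K c i - dl i) := by
      rw [Finset.sum_mul]
      rw [← Finset.sum_filter_add_sum_filter_not Finset.univ
        (fun r : Fin (d c i) => mass c P i σ * K c i - dl i ≤
          mass c P (i + 1) (σ * d c i + r) * K c (i + 1))]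
      apply add_le_add
      · calc _ ≤ ∑ r ∈ Finset.univ.filter (fun r : Fin (d c i) => mass c P i σ * K c i - dl i ≤
          mass c P (i + 1) (σ * d c i + r) * K c (i + 1)), (1 : ℝ) :=
              Finset.sum_le_sum (fun r _ => mass_le c P _ _)
          _ = (S.card : ℝ) := by rw [Finset.sum_const, nsmul_eq_mul, mul_one, hS]; rfl
      · calc _ ≤ ∑ r ∈ Finset.univ.filter (fun r : Fin (d c i) => ¬ (mass c P i σ * K c i - dl i ≤
          mass c P (i + 1) (σ * d c i + r) * K c (i + 1))), (mass c P i σ * K c i - dl i) :=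
              Finset.sum_le_sum (fun r hr => by
                have := (Finset.mem_filter.mp hr).2
                exact (not_le.mp this).le)
          _ ≤ (d c i : ℕ) * (mass c P i σ * K c i - dl i) := by
              rw [Finset.sum_const, nsmul_eq_mul]
              apply mul_le_mul_of_nonneg_right _ (by linarith)
              have := Finset.card_filter_le (Finset.univ : Finset (Fin (d c i)))
                (fun r => ¬ (mass c P i σ * K c i - dl i ≤
                  mass c P (i + 1) (σ * d c i + r) * K c (i + 1)))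
              rw [Finset.card_univ, Fintype.card_fin] at this
              exact_mod_cast this
    have hKp : (0 : ℝ) < (K c (i + 1) : ℕ) := by exact_mod_cast K_pos c (i + 1)
    have h3 := mul_le_mul_of_nonneg_right h1 hKp.le
    have h4 := h3.trans h2
    rw [hK'] at h4
    nlinarith

open Classical in
/-- symbols that all rich successors of a node miss -/
noncomputable def Bad (i σ : ℕ) : Finset (Fin (c i)) :=
  Finset.univ.filter (fun y => ∀ r ∈ Succ c P i σ, e c i r y = 0)

theorem card_Bad (i σ : ℕ) : (Bad c P i σ).card ≤ i + 3 := by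
  classical
  have hdn : 0 < d c i := by unfold d; positivity
  have hd : (0 : ℝ) < (d c i : ℕ) := by exact_mod_cast hdn
  have h1 := card_Succ c P i σ
  have h2 := card_all c i (Bad c P i σ)
  have h3 : (Succ c P i σ).card ≤ (Finset.univ.filter
      (fun r : Fin (d c i) => ∀ y ∈ Bad c P i σ, e c i r y = 0)).card := by
    apply Finset.card_le_card
    intro r hr
    rw [Finset.mem_filter]
    refine ⟨Finset.mem_univ _, fun y hy => ?_⟩
    exact (Finset.mem_filter.mp hy).2 r hr
  have h4 : (i + 2) ^ (Bad c P i σ).card * (Succ c P i σ).card ≤ d c i :=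
    (Nat.mul_le_mul_left _ h3).trans h2.le
  have h5 : ((i + 2 : ℕ) : ℝ) ^ (Bad c P i σ).card * ((Succ c P i σ).card : ℝ) ≤ (d c i : ℕ) := by
    exact_mod_cast h4
  have h6 : ((i + 2 : ℕ) : ℝ) ^ (Bad c P i σ).card * dl i ≤ 1 := by
    have h7 : ((i + 2 : ℕ) : ℝ) ^ (Bad c P i σ).card * (dl i * (d c i : ℕ)) ≤ (d c i : ℕ) :=
      (mul_le_mul_of_nonneg_left h1 (by positivity)).trans h5
    have h8 : (((i + 2 : ℕ) : ℝ) ^ (Bad c P i σ).card * dl i) * (d c i : ℕ) ≤ 1 * (d c i : ℕ) := by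
      rw [one_mul, mul_assoc]; exact h7
    exact le_of_mul_le_mul_right h8 hd
  have h7 : (2 : ℝ) ^ (Bad c P i σ).card ≤ 2 ^ (i + 3) := by
    have h8 : (2 : ℝ) ^ (Bad c P i σ).card ≤ ((i + 2 : ℕ) : ℝ) ^ (Bad c P i σ).card := by
      apply pow_le_pow_left₀ (by norm_num)
      push_cast
      have : (0 : ℝ) ≤ i := Nat.cast_nonneg i
      linarith
    have h9 : ((i + 2 : ℕ) : ℝ) ^ (Bad c P i σ).card ≤ 2 ^ (i + 3) := by
      have h10 : dl i * 2 ^ (i + 3) = 1 := by
        unfold dl; rw [← mul_pow]; norm_num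
      have h11 : (0 : ℝ) < 2 ^ (i + 3) := by positivity
      calc ((i + 2 : ℕ) : ℝ) ^ (Bad c P i σ).card
          = (((i + 2 : ℕ) : ℝ) ^ (Bad c P i σ).card * dl i) * 2 ^ (i + 3) := by
            rw [mul_assoc, h10, mul_one]
        _ ≤ 1 * 2 ^ (i + 3) := mul_le_mul_of_nonneg_right h6 h11.le
        _ = 2 ^ (i + 3) := one_mul _
    exact h8.trans h9
  exact (pow_le_pow_iff_right₀ (by norm_num : (1 : ℝ) < 2)).mp h7

/-- If `y` is never bad for a node of the tree, then `P` meets `F c y`. -/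
theorem meets (hP : IsCompact P) (hmass : 3 / 4 ≤ mass c P 0 0) (y : ∀ i, Fin (c i))
    (hy : ∀ i, ∀ σ < K c i, y i ∉ Bad c P i σ) : (P ∩ F c y).Nonempty := by
  classical
  let Q : ℕ → ℕ → Prop := fun i σ => σ ∈ Adm c y i ∧ 1 / 2 + (1 / 2 : ℝ) ^ (i + 2) ≤
    mass c P i σ * K c i
  have step : ∀ i σ, Q i σ → ∃ r : Fin (d c i), Q (i + 1) (σ * d c i + r) := by
    rintro i σ ⟨h1, h2⟩
    have h3 := hy i σ (Adm_lt c y i σ h1)
    rw [Bad, Finset.mem_filter] at h3
    push Not at h3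
    obtain ⟨r, hr, hr2⟩ := h3 (Finset.mem_univ _)
    refine ⟨r, ?_, ?_⟩
    · rw [Adm, Finset.mem_image]
      exact ⟨(σ, r), by simp [h1, hr2], rfl⟩
    · have h4 := (Finset.mem_filter.mp hr).2
      have h5 : dl i = (1 / 2 : ℝ) ^ (i + 3) := rfl
      have h6 : (1 / 2 : ℝ) ^ (i + 1 + 2) = (1 / 2 : ℝ) ^ (i + 3) := by ring_nf
      have h7 : (1 / 2 : ℝ) ^ (i + 2) = 2 * (1 / 2 : ℝ) ^ (i + 3) := by
        rw [pow_succ (1 / 2 : ℝ) (i + 2)]; ring
      rw [h6]
      rw [h5] at h4
      linarith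
  choose! r hr using step
  let s : ℕ → ℕ := fun i => Nat.rec 0 (fun i σ => σ * d c i + r i σ) i
  have hs : ∀ i, s (i + 1) = s i * d c i + r i (s i) := fun i => rfl
  have hQ : ∀ i, Q i (s i) := by
    intro i
    induction i with
    | zero =>
      refine ⟨by simp [Adm, s], ?_⟩
      have : (K c 0 : ℝ) = 1 := by simp [K]
      rw [this, mul_one]
      have : s 0 = 0 := rfl
      rw [this]; linarith [show (1 / 2 : ℝ) + (1 / 2) ^ (0 + 2) = 3 / 4 by norm_num]
    | succ i ih => rw [hs]; exact hr i (s i) ih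
  have hne : ∀ i, (P ∩ J c i (s i)).Nonempty := by
    intro i
    by_contra hcon
    rw [Set.not_nonempty_iff_eq_empty] at hcon
    have h1 := (hQ i).2
    have h2 : mass c P i (s i) = 0 := by unfold mass; rw [hcon]; simp
    rw [h2, zero_mul] at h1
    have : (0 : ℝ) < (1 / 2) ^ (i + 2) := by positivity
    linarith
  have hinter : (⋂ i, (P ∩ J c i (s i))).Nonempty := by
    apply IsCompact.nonempty_iInter_of_sequence_nonempty_isCompact_isClosed
    · intro i
      apply Set.inter_subset_inter_right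
      rw [hs]
      exact J_succ_subset c i (s i) (r i (s i))
    · exact hne
    · exact hP.inter_right isClosed_Icc
    · intro i; exact hP.isClosed.inter isClosed_Icc
  obtain ⟨z, hz⟩ := hinter
  rw [mem_iInter] at hz
  refine ⟨z, (hz 0).1, ?_⟩
  rw [F, mem_iInter]
  intro m
  rw [mem_iUnion₂]
  exact ⟨s m, (hQ m).1, (hz m).2⟩

end Tree

/-- the code of a real in `[0,1)` -/
noncomputable def code (c : ℕ → ℕ) (hc : ∀ i, 0 < c i) (a : Set.Ico (0 : ℝ) 1) (i : ℕ) : Fin (c i) :=
  ⟨⌊(a : ℝ) * c i⌋₊, by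
    have h0 : (0 : ℝ) < c i := by exact_mod_cast hc i
    rw [Nat.floor_lt (mul_nonneg a.2.1 h0.le)]
    nlinarith [a.2.2]⟩

/-- The key fact: the union is not null. -/
theorem union_not_null (A : Set ℝ) (hA : A ⊆ Set.Ico 0 1) (ε : ℕ → ℝ) (hε : ∀ n, 0 < ε n)
    (hcov : ∀ a b : ℕ → ℝ, (∀ n, b n - a n < ε n) → ¬ A ⊆ ⋃ n, Set.Icc (a n) (b n))
    (c : ℕ → ℕ) (hc : ∀ i, 0 < c i)
    (hc2 : ∀ i, ∀ r < K c i * (i + 4), 1 / (c i : ℝ) < ε (Nat.pair i r)) :
    volume (⋃ a : A, F c (code c hc ⟨a.1, hA a.2⟩)) ≠ 0 := by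
  classical
  intro hnull
  obtain ⟨O, hO1, hO2, hO3⟩ := Set.exists_isOpen_lt_of_lt
    (⋃ a : A, F c (code c hc ⟨a.1, hA a.2⟩)) (μ := volume) (ENNReal.ofReal (1 / 4))
    (by rw [hnull]; simp)
  set P : Set ℝ := Set.Icc 0 1 \ O with hPdef
  have hPc : IsCompact P := isCompact_Icc.diff hO2
  have hmass : 3 / 4 ≤ mass c P 0 0 := by
    have hJ : J c 0 0 = Set.Icc 0 1 := by simp [J, K]
    have hPJ : P ∩ J c 0 0 = P := by
      rw [hJ, hPdef]; ext z; simp only [mem_inter_iff, Set.mem_sdiff, mem_Icc]; tauto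
    unfold mass
    rw [hPJ]
    have h1 : volume (Set.Icc (0 : ℝ) 1) ≤ volume P + volume O := by
      refine (measure_mono ?_).trans (measure_union_le _ _)
      intro z hz
      by_cases hzO : z ∈ O
      · exact Or.inr hzO
      · exact Or.inl ⟨hz, hzO⟩
    rw [Real.volume_Icc] at h1
    have hPfin : volume P ≠ ⊤ := (hPc.measure_lt_top).ne
    have h2 : ENNReal.ofReal (1 - 0) ≤ volume P + ENNReal.ofReal (1 / 4) :=
      h1.trans (add_le_add le_rfl hO3.le)
    have h3 : (1 : ℝ) ≤ (volume P).toReal + 1 / 4 := by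
      have := ENNReal.toReal_mono (ENNReal.add_ne_top.mpr ⟨hPfin, ENNReal.ofReal_ne_top⟩) h2
      rw [ENNReal.toReal_add hPfin ENNReal.ofReal_ne_top, ENNReal.toReal_ofReal (by norm_num),
        ENNReal.toReal_ofReal (by norm_num)] at this
      linarith
    linarith
  -- the sets of guesses
  let W : ∀ i, Finset (Fin (c i)) := fun i => (Finset.range (K c i)).biUnion (fun σ => Bad c P i σ)
  have hW : ∀ i, (W i).card ≤ K c i * (i + 4) := by
    intro i
    refine Finset.card_biUnion_le.trans ?_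
    calc ∑ σ ∈ Finset.range (K c i), (Bad c P i σ).card
        ≤ ∑ σ ∈ Finset.range (K c i), (i + 4) :=
          Finset.sum_le_sum (fun σ _ => (card_Bad c P i σ).trans (by omega))
      _ = K c i * (i + 4) := by simp
  -- the cover
  let L : ℕ → ℕ → ℝ × ℝ := fun i r => if h : r < (W i).toList.length then
    ((((W i).toList[r] : Fin _) : ℕ) / (c i : ℝ), ((((W i).toList[r] : Fin _) : ℕ) + 1) / (c i : ℝ))
    else (1, 0)
  have hlen : ∀ n : ℕ, (L n.unpair.1 n.unpair.2).2 - (L n.unpair.1 n.unpair.2).1 < ε n := by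
    intro n
    simp only [L]
    split_ifs with h
    · have h1 : n.unpair.2 < K c n.unpair.1 * (n.unpair.1 + 4) := by
        rw [Finset.length_toList] at h
        exact h.trans_le (hW _)
      have h2 := hc2 _ _ h1
      rw [Nat.pair_unpair] at h2
      simp only
      rw [← sub_div, add_sub_cancel_left]
      exact h2
    · have := hε n; simp only; linarith
  have hnot := hcov _ _ hlen
  rw [Set.not_subset] at hnot
  obtain ⟨a, haA, ha⟩ := hnot
  have hyW : ∀ i, code c hc ⟨a, hA haA⟩ i ∉ W i := by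
    intro i hi'
    apply ha
    rw [← Finset.mem_toList, List.mem_iff_getElem] at hi'
    obtain ⟨k, hk, hk2⟩ := hi'
    rw [mem_iUnion]
    refine ⟨Nat.pair i k, ?_⟩
    have hci : (0 : ℝ) < c i := by exact_mod_cast hc i
    have hL : L i k = ((((code c hc ⟨a, hA haA⟩ i : Fin (c i)) : ℕ) : ℝ) / (c i : ℝ),
        ((((code c hc ⟨a, hA haA⟩ i : Fin (c i)) : ℕ) : ℝ) + 1) / (c i : ℝ)) := by
      simp only [L]
      rw [dif_pos hk, hk2]
    rw [Nat.unpair_pair]
    simp only
    rw [hL]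
    have h0 : 0 ≤ a * c i := mul_nonneg (hA haA).1 hci.le
    constructor
    · rw [div_le_iff₀ hci]
      exact Nat.floor_le h0
    · rw [le_div_iff₀ hci]
      exact (Nat.lt_floor_add_one _).le
  obtain ⟨z, hzP, hzF⟩ := meets c P hPc hmass (code c hc ⟨a, hA haA⟩) (by
    intro i σ hσ hbad
    exact hyW i (Finset.mem_biUnion.mpr ⟨σ, Finset.mem_range.mpr hσ, hbad⟩))
  exact hzP.2 (hO1 (mem_iUnion.mpr ⟨⟨a, haA⟩, hzF⟩))

/-! ## The Riemann integrable function -/

theorem volume_F (c : ℕ → ℕ) (y : ∀ i, Fin (c i)) : volume (F c y) = 0 := by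
  refine le_antisymm ?_ bot_le
  apply ENNReal.le_of_forall_pos_le_add
  intro η hη _
  rw [zero_add]
  obtain ⟨m, hm⟩ := exists_nat_gt (1 / (η : ℝ))
  have hη' : (0 : ℝ) < η := hη
  have hK : (0 : ℝ) < K c m := by exact_mod_cast K_pos c m
  have h1 : volume (F c y) ≤ ∑ σ ∈ Adm c y m, volume (J c m σ) := by
    refine (measure_mono (iInter_subset _ m)).trans (measure_biUnion_finset_le _ _)
  have h2 : ∑ σ ∈ Adm c y m, volume (J c m σ) = ENNReal.ofReal ((Adm c y m).card * (1 / K c m)) := by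
    simp_rw [volume_J]
    rw [Finset.sum_const, nsmul_eq_mul, ENNReal.ofReal_mul (Nat.cast_nonneg _),
      ENNReal.ofReal_natCast]
  rw [h2] at h1
  refine h1.trans ?_
  rw [ENNReal.ofReal_le_iff_le_toReal ENNReal.coe_ne_top, ENNReal.coe_toReal]
  have h3 : ((Adm c y m).card : ℝ) * (m + 1) ≤ K c m := by exact_mod_cast card_Adm c y m
  have hm0 : (0 : ℝ) < m + 1 := by positivity
  have h4 : ((Adm c y m).card : ℝ) * (1 / K c m) ≤ 1 / (m + 1) := by
    rw [mul_one_div, div_le_div_iff₀ hK hm0]; linarith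
  refine h4.trans ?_
  rw [div_le_iff₀ hm0]
  rw [div_lt_iff₀ hη'] at hm
  nlinarith

/-- total length of the partition intervals tagged in `F c y` -/
theorem tagged_length (c : ℕ → ℕ) (y : ∀ i, Fin (c i)) (m p : ℕ) (a t : ℕ → ℝ)
    (h : ∀ j < p, a j ≤ t j ∧ t j ≤ a (j + 1) ∧ a (j + 1) - a j < 1 / K c m)
    (T : Finset ℕ) (hT : ∀ j ∈ T, j < p ∧ t j ∈ F c y) :
    ∑ j ∈ T, (a (j + 1) - a j) ≤ 3 / (m + 1) := by
  have hK : (0 : ℝ) < K c m := by exact_mod_cast K_pos c m
  let a' : ℕ → ℝ := fun j => a (min j p)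
  have hmono : Monotone a' := by
    apply monotone_nat_of_le_succ
    intro j
    simp only [a']
    rcases lt_or_ge j p with hj | hj
    · rw [min_eq_left hj.le, min_eq_left (show j + 1 ≤ p from hj)]
      exact (h j hj).1.trans (h j hj).2.1
    · rw [min_eq_right hj, min_eq_right (by omega)]
  have ha' : ∀ j < p, a' j = a j ∧ a' (j + 1) = a (j + 1) := by
    intro j hj
    simp only [a']
    rw [min_eq_left hj.le, min_eq_left (show j + 1 ≤ p from hj)]
    exact ⟨rfl, rfl⟩
  have hdisj : (T : Set ℕ).PairwiseDisjoint (fun j => Set.Ioc (a' j) (a' (j + 1))) := by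
    intro i _ j _ hij
    exact hmono.pairwise_disjoint_on_Ioc_succ hij
  have h1 : ENNReal.ofReal (∑ j ∈ T, (a (j + 1) - a j))
      = volume (⋃ j ∈ T, Set.Ioc (a' j) (a' (j + 1))) := by
    rw [measure_biUnion_finset hdisj (fun _ _ => measurableSet_Ioc)]
    rw [ENNReal.ofReal_sum_of_nonneg]
    · apply Finset.sum_congr rfl
      intro j hj
      rw [Real.volume_Ioc, (ha' j (hT j hj).1).1, (ha' j (hT j hj).1).2]
    · intro j hj
      have := h j (hT j hj).1
      linarith [this.1, this.2.1]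
  have h2 : (⋃ j ∈ T, Set.Ioc (a' j) (a' (j + 1))) ⊆
      ⋃ σ ∈ Adm c y m, Set.Icc (((σ : ℝ) - 1) / K c m) (((σ : ℝ) + 2) / K c m) := by
    intro z hz
    rw [mem_iUnion₂] at hz
    obtain ⟨j, hj, hz⟩ := hz
    obtain ⟨hjp, hjF⟩ := hT j hj
    rw [(ha' j hjp).1, (ha' j hjp).2] at hz
    have h3 := mem_iInter.mp hjF m
    rw [mem_iUnion₂] at h3
    obtain ⟨σ, hσ, hσ2⟩ := h3
    rw [mem_iUnion₂]
    refine ⟨σ, hσ, ?_⟩
    obtain ⟨q1, q2, q3⟩ := h j hjp
    have e1 := hσ2.1
    have e2 := hσ2.2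
    constructor
    · rw [sub_div]; linarith [hz.1]
    · have : ((σ : ℝ) + 2) / K c m = ((σ : ℝ) + 1) / K c m + 1 / K c m := by ring
      rw [this]; linarith [hz.2]
  have h3 : volume (⋃ σ ∈ Adm c y m, Set.Icc (((σ : ℝ) - 1) / K c m) (((σ : ℝ) + 2) / K c m))
      ≤ ENNReal.ofReal ((Adm c y m).card * (3 / K c m)) := by
    refine (measure_biUnion_finset_le _ _).trans ?_
    have : ∀ σ : ℕ, volume (Set.Icc (((σ : ℝ) - 1) / K c m) (((σ : ℝ) + 2) / K c m))
        = ENNReal.ofReal (3 / K c m) := by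
      intro σ; rw [Real.volume_Icc]; congr 1; ring
    simp_rw [this]
    rw [Finset.sum_const, nsmul_eq_mul, ENNReal.ofReal_mul (Nat.cast_nonneg _),
      ENNReal.ofReal_natCast]
  have h4 : ENNReal.ofReal (∑ j ∈ T, (a (j + 1) - a j))
      ≤ ENNReal.ofReal ((Adm c y m).card * (3 / K c m)) := by
    rw [h1]; exact (measure_mono h2).trans h3
  rw [ENNReal.ofReal_le_ofReal_iff (by positivity)] at h4
  refine h4.trans ?_
  have h5 : ((Adm c y m).card : ℝ) * (m + 1) ≤ K c m := by exact_mod_cast card_Adm c y m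
  have hm0 : (0 : ℝ) < m + 1 := by positivity
  rw [mul_div_assoc', div_le_div_iff₀ hK hm0]
  nlinarith

section Fn

variable {Γ : Type u} {I : Type} (ι : I ↪ Γ) (G : I → Set ℝ)

/-- the Hilbert space `ℓ²(Γ)` -/
abbrev H (Γ : Type u) : Type u := lp (fun _ : Γ => ℝ) 2

open Classical in
/-- choice function of the family `G` -/
noncomputable def fn (t : unitInterval) : H Γ :=
  if h : ∃ a : I, (t : ℝ) ∈ G a then lp.single 2 (ι h.choose) (1 : ℝ) else 0

theorem inner_fn (s t : unitInterval) :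
    inner ℝ (fn ι G s) (fn ι G t) = 0 ∨
    (inner ℝ (fn ι G s) (fn ι G t) = 1 ∧ ∃ hs : ∃ a : I, (s : ℝ) ∈ G a, (t : ℝ) ∈ G hs.choose) := by
  classical
  by_cases hs : ∃ a : I, (s : ℝ) ∈ G a
  · by_cases ht : ∃ a : I, (t : ℝ) ∈ G a
    · have e1 : fn ι G s = lp.single 2 (ι hs.choose) (1 : ℝ) := dif_pos hs
      have e2 : fn ι G t = lp.single 2 (ι ht.choose) (1 : ℝ) := dif_pos ht
      by_cases heq : hs.choose = ht.choose
      · right
        refine ⟨?_, hs, ?_⟩
        · rw [e1, e2, lp.inner_single_left, heq, lp.single_apply_self]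
          simp
        · rw [heq]; exact ht.choose_spec
      · left
        rw [e1, e2, lp.inner_single_left, lp.single_apply_ne]
        · simp
        · intro h; exact heq (ι.injective h)
    · left
      have e2 : fn ι G t = 0 := dif_neg ht
      rw [e2, inner_zero_right]
  · left
    have e1 : fn ι G s = 0 := dif_neg hs
    rw [e1, inner_zero_left]

theorem fn_zero_of (t : unitInterval) (ht : ¬ ∃ a : I, (t : ℝ) ∈ G a) : fn ι G t = 0 := by
  classical
  exact dif_neg ht

theorem fn_of (t : unitInterval) (ht : ∃ a : I, (t : ℝ) ∈ G a) :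
    ∃ a : I, (t : ℝ) ∈ G a ∧ inner ℝ (fn ι G t) (fn ι G t) = (1 : ℝ) ∧
      ∀ s : unitInterval, inner ℝ (fn ι G t) (fn ι G s) ≠ (0 : ℝ) → (s : ℝ) ∈ G a := by
  classical
  refine ⟨ht.choose, ht.choose_spec, ?_, ?_⟩
  · have e1 : fn ι G t = lp.single 2 (ι ht.choose) (1 : ℝ) := dif_pos ht
    rw [e1, lp.inner_single_left, lp.single_apply_self]; simp
  · intro s hs
    rcases inner_fn ι G t s with h | ⟨_, _, h2⟩
    · exact absurd h hs
    · exact h2

/-- the function is nowhere weakly continuous on the union of the null sets `G a` -/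
theorem fn_not_cont (hG : ∀ a, volume (G a) = 0) (t : unitInterval)
    (ht : ∃ a : I, (t : ℝ) ∈ G a) :
    ¬ ContinuousAt (fun s => toWeakSpace ℝ (H Γ) (fn ι G s)) t := by
  intro hcont
  obtain ⟨a, _, hone, hzero⟩ := fn_of ι G t ht
  have h1 : ContinuousAt (fun s => inner ℝ (fn ι G t) (fn ι G s)) t := by
    have h2 : Continuous (fun x : WeakSpace ℝ (H Γ) =>
        (innerSL ℝ (fn ι G t)) ((toWeakSpace ℝ (H Γ)).symm x)) :=
      WeakBilin.eval_continuous _ (innerSL ℝ (fn ι G t))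
    have h3 := h2.continuousAt.comp hcont
    exact h3
  have h2 : ∀ᶠ s in 𝓝 t, (0 : ℝ) < inner ℝ (fn ι G t) (fn ι G s) := by
    apply h1.eventually_const_lt
    change (0 : ℝ) < inner ℝ (fn ι G t) (fn ι G t)
    rw [hone]; norm_num
  have h3 : {s : unitInterval | (s : ℝ) ∈ G a} ∈ 𝓝 t := by
    filter_upwards [h2] with s hs
    exact hzero s hs.ne'
  obtain ⟨δ, hδ, hball⟩ := Metric.mem_nhds_iff.mp h3
  have hsub : Set.Icc (max 0 ((t : ℝ) - δ / 2)) (min 1 ((t : ℝ) + δ / 2)) ⊆ G a := by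
    intro x hx
    have hx0 : 0 ≤ x := (le_max_left _ _).trans hx.1
    have hx1 : x ≤ 1 := hx.2.trans (min_le_left _ _)
    have hx2 : (t : ℝ) - δ / 2 ≤ x := (le_max_right _ _).trans hx.1
    have hx3 : x ≤ (t : ℝ) + δ / 2 := hx.2.trans (min_le_right _ _)
    have : (⟨x, hx0, hx1⟩ : unitInterval) ∈ Metric.ball t δ := by
      rw [Metric.mem_ball, Subtype.dist_eq, Real.dist_eq, abs_lt]
      constructor <;> simp only <;> linarith
    exact hball this
  have hvol := measure_mono (μ := volume) hsub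
  rw [hG a, Real.volume_Icc] at hvol
  have h4 : min 1 ((t : ℝ) + δ / 2) - max 0 ((t : ℝ) - δ / 2) ≤ 0 := by
    have := le_antisymm hvol bot_le
    exact ENNReal.ofReal_eq_zero.mp this
  have ht0 := t.2.1
  have ht1 := t.2.2
  have h5 : max 0 ((t : ℝ) - δ / 2) < min 1 ((t : ℝ) + δ / 2) := by
    rw [max_lt_iff, lt_min_iff, lt_min_iff]
    refine ⟨⟨by norm_num, by linarith⟩, ⟨by linarith, by linarith⟩⟩
  linarith

end Fn

theorem fn_integrable {Γ : Type u} {I : Type} (ι : I ↪ Γ) (c : ℕ → ℕ) (y : I → ∀ i, Fin (c i)) :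
    HasRiemannIntegral (fn ι (fun a => F c (y a))) 0 := by
  classical
  set G : I → Set ℝ := fun a => F c (y a) with hGdef
  intro ε hε
  obtain ⟨m, hm⟩ := exists_nat_gt (3 / ε ^ 2)
  have hK : (0 : ℝ) < K c m := by exact_mod_cast K_pos c m
  refine ⟨1 / K c m, by positivity, ?_⟩
  intro p a t ha0 hap h
  set w : ℕ → ℝ := fun j => a (j + 1) - a j with hw
  have hw0 : ∀ j ∈ Finset.range p, 0 ≤ w j := by
    intro j hj
    have := h j (Finset.mem_range.mp hj)
    simp only [hw]; linarith [this.1, this.2.1]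
  have hsum : ∑ j ∈ Finset.range p, w j = 1 := by
    simp only [hw]; rw [Finset.sum_range_sub, ha0, hap, sub_zero]
  rw [sub_zero]
  set v := ∑ j ∈ Finset.range p, w j • fn ι G (t j) with hv
  have hnorm : ‖v‖ ^ 2 ≤ 3 / (m + 1) := by
    rw [← real_inner_self_eq_norm_sq, hv, sum_inner]
    have key : ∀ j ∈ Finset.range p, inner ℝ (w j • fn ι G (t j))
        (∑ k ∈ Finset.range p, w k • fn ι G (t k)) ≤ w j * (3 / (m + 1)) := by
      intro j hj
      rw [real_inner_smul_left, inner_sum]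
      apply mul_le_mul_of_nonneg_left _ (hw0 j hj)
      simp_rw [real_inner_smul_right]
      by_cases hs : ∃ a : I, ((t j : unitInterval) : ℝ) ∈ G a
      · obtain ⟨b, _, _, hb⟩ := fn_of ι G (t j) hs
        have hle : ∀ k, inner ℝ (fn ι G (t j)) (fn ι G (t k)) ≤ (1 : ℝ) := by
          intro k
          rcases inner_fn ι G (t j) (t k) with h | ⟨h, _⟩
          · rw [h]; norm_num
          · rw [h]
        calc ∑ k ∈ Finset.range p, w k * inner ℝ (fn ι G (t j)) (fn ι G (t k))
            ≤ ∑ k ∈ Finset.range p, (if ((t k : unitInterval) : ℝ) ∈ G b then w k else 0) := by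
              apply Finset.sum_le_sum
              intro k hk
              split_ifs with hkb
              · have := mul_le_mul_of_nonneg_left (hle k) (hw0 k hk)
                rwa [mul_one] at this
              · have : inner ℝ (fn ι G (t j)) (fn ι G (t k)) = (0 : ℝ) := by
                  by_contra hne; exact hkb (hb _ hne)
                rw [this, mul_zero]
          _ = ∑ k ∈ (Finset.range p).filter (fun k => ((t k : unitInterval) : ℝ) ∈ G b), w k := by
              rw [Finset.sum_filter]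
          _ ≤ 3 / (m + 1) := by
              apply tagged_length c (y b) m p a (fun k => ((t k : unitInterval) : ℝ)) h
              intro k hk
              rw [Finset.mem_filter, Finset.mem_range] at hk
              exact hk
      · rw [fn_zero_of ι G (t j) hs]
        simp only [inner_zero_left, mul_zero, Finset.sum_const_zero]
        positivity
    calc _ ≤ ∑ j ∈ Finset.range p, w j * (3 / (m + 1)) := Finset.sum_le_sum key
      _ = 3 / (m + 1) := by rw [← Finset.sum_mul, hsum, one_mul]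
  have hm0 : (0 : ℝ) < m + 1 := by positivity
  have hlt : ‖v‖ ^ 2 < ε ^ 2 := by
    refine hnorm.trans_lt ?_
    rw [div_lt_iff₀ (by positivity)] at hm
    rw [div_lt_iff₀ hm0]
    nlinarith [sq_nonneg ε, sq_pos_of_pos hε]
  exact lt_of_pow_lt_pow_left₀ 2 hε.le hlt

/-- Failure of the weak Lebesgue property. -/
theorem not_WLP (Γ : Type u) (h : Cardinal.lift.{u} nonSN ≤ #Γ) : ¬ WLP (H Γ) := by
  intro hW
  obtain ⟨A, hA, hAn, ⟨ι⟩⟩ := exists_nonSMZ Γ h
  unfold StrongMeasureZero at hAn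
  push Not at hAn
  obtain ⟨ε, hε, hcov⟩ := hAn
  obtain ⟨c, hc⟩ := exists_seq ε hε
  have hnn := union_not_null A hA ε hε hcov c (fun i => (hc i).1) (fun i => (hc i).2)
  set y : A → ∀ i, Fin (c i) := fun a => code c (fun i => (hc i).1) ⟨a.1, hA a.2⟩ with hy
  have hae := hW (fn ι (fun a => F c (y a))) ⟨0, fn_integrable ι c y⟩
  apply hnn
  have h1 : ∀ᵐ x : unitInterval, (x : ℝ) ∉ ⋃ a : A, F c (y a) := by
    filter_upwards [hae] with x hx hmem
    obtain ⟨a, ha⟩ := mem_iUnion.mp hmem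
    exact fn_not_cont ι (fun a => F c (y a)) (fun a => volume_F c (y a)) x ⟨a, ha⟩ hx
  have h2 : ∀ᵐ x ∂(volume.restrict unitInterval), x ∉ ⋃ a : A, F c (y a) :=
    (ae_restrict_iff_subtype (s := unitInterval) measurableSet_Icc
      (p := fun x => x ∉ ⋃ a : A, F c (y a))).mpr h1
  have h3 : ∀ᵐ x : ℝ, x ∈ unitInterval → x ∉ ⋃ a : A, F c (y a) :=
    (ae_restrict_iff' measurableSet_Icc).mp h2
  have h4 : ∀ᵐ x : ℝ, x ∉ ⋃ a : A, F c (y a) := by
    filter_upwards [h3] with x hx hmem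
    refine hx ?_ hmem
    obtain ⟨a, ha⟩ := mem_iUnion.mp hmem
    have h5 := mem_iInter.mp ha 0
    rw [mem_iUnion₂] at h5
    obtain ⟨σ, hσ, hσ2⟩ := h5
    have h6 : σ = 0 := by simpa [Adm] using hσ
    subst h6
    simpa [J, K] using hσ2
  rw [ae_iff] at h4
  have h5 : {x : ℝ | ¬ x ∉ ⋃ a : A, F c (y a)} = ⋃ a : A, F c (y a) := by
    ext x; simp only [Set.mem_ofPred_eq, not_not]
  rw [h5] at h4
  exact h4

/-! ## Part A: guessing -/

/-- a copy of the Cantor set in the line -/
noncomputable def psi (s : ℕ → Bool) : ℝ := ∑' i, (if s i then (1 / 3 : ℝ) ^ i else 0)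

theorem summable_psi (s : ℕ → Bool) : Summable (fun i => (if s i then (1 / 3 : ℝ) ^ i else 0)) := by
  apply Summable.of_nonneg_of_le _ _ (summable_geometric_of_lt_one (by norm_num)
    (by norm_num : (1 / 3 : ℝ) < 1))
  · intro i; split_ifs <;> positivity
  · intro i; split_ifs
    · exact le_rfl
    · positivity

theorem psi_sep (s s' : ℕ → Bool) (n : ℕ) (h : |psi s - psi s'| < (1 / 3 : ℝ) ^ n / 2) :
    ∀ i ≤ n, s i = s' i := by
  by_contra hcon
  push Not at hcon
  have hex : ∃ i, s i ≠ s' i := by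
    obtain ⟨i, _, hi⟩ := hcon; exact ⟨i, hi⟩
  classical
  set k := Nat.find hex with hk
  have hk1 : s k ≠ s' k := Nat.find_spec hex
  have hk2 : ∀ i < k, s i = s' i := fun i hi => by
    by_contra h'; exact Nat.find_min hex hi h'
  have hkn : k ≤ n := by
    obtain ⟨i, hi1, hi⟩ := hcon
    exact (Nat.find_min' hex hi).trans hi1
  let u : ℕ → ℝ := fun i => (if s i then (1 / 3 : ℝ) ^ i else 0) - (if s' i then (1 / 3 : ℝ) ^ i else 0)
  have hu : Summable u := (summable_psi s).sub (summable_psi s')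
  have hsum : psi s - psi s' = ∑' i, u i := by
    unfold psi
    rw [← (summable_psi s).tsum_sub (summable_psi s')]
  have habs : ∀ i, |u i| ≤ (1 / 3 : ℝ) ^ i := by
    intro i
    have hp : (0 : ℝ) ≤ (1 / 3) ^ i := by positivity
    simp only [u]
    split_ifs <;> simp [abs_of_nonneg]
  have h1 : ∑' i, u i = u k + ∑' i, u (i + (k + 1)) := by
    rw [← hu.sum_add_tsum_nat_add (k + 1), Finset.sum_range_succ]
    congr 1
    rw [Finset.sum_eq_zero]
    · ring
    · intro i hi
      rw [Finset.mem_range] at hi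
      simp only [u]
      rw [hk2 i hi]; ring
  have hgeo : Summable (fun i => (1 / 3 : ℝ) ^ (i + (k + 1))) := by
    simp_rw [pow_add]
    exact (summable_geometric_of_lt_one (by norm_num) (by norm_num)).mul_right _
  have h2 : |∑' i, u (i + (k + 1))| ≤ (1 / 3 : ℝ) ^ k / 2 := by
    have h3 : Summable (fun i => |u (i + (k + 1))|) :=
      Summable.of_nonneg_of_le (fun i => abs_nonneg _) (fun i => habs _) hgeo
    calc |∑' i, u (i + (k + 1))| ≤ ∑' i, |u (i + (k + 1))| := by
          simpa [Real.norm_eq_abs] using norm_tsum_le_tsum_norm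
            (f := fun i => u (i + (k + 1))) (by simpa [Real.norm_eq_abs] using h3)
      _ ≤ ∑' i, (1 / 3 : ℝ) ^ (i + (k + 1)) := h3.tsum_le_tsum (fun i => habs _) hgeo
      _ = (1 / 3 : ℝ) ^ k / 2 := by
          simp_rw [pow_add]
          rw [tsum_mul_right, tsum_geometric_of_lt_one (by norm_num) (by norm_num)]
          ring
  have h3 : |u k| = (1 / 3 : ℝ) ^ k := by
    have hp : (0 : ℝ) ≤ (1 / 3) ^ k := by positivity
    simp only [u]
    rcases hs : s k with _ | _ <;> rcases hs' : s' k with _ | _ <;> simp_all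
  have h4 : (1 / 3 : ℝ) ^ k / 2 ≤ |psi s - psi s'| := by
    rw [hsum, h1]
    have := abs_sub_abs_le_abs_sub (u k) (-(∑' i, u (i + (k + 1))))
    rw [abs_neg, sub_neg_eq_add] at this
    linarith
  have h5 : (1 / 3 : ℝ) ^ n ≤ (1 / 3 : ℝ) ^ k := pow_le_pow_of_le_one (by norm_num) (by norm_num) hkn
  linarith

/-- sets of small cardinality are of strong measure zero -/
theorem smz_range {Γ : Type u} (h : #Γ < Cardinal.lift.{u} nonSN) (f : Γ → ℝ) :
    StrongMeasureZero (Set.range f) := by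
  by_contra hcon
  have h1 : nonSN ≤ #(Set.range f) := csInf_le' ⟨_, hcon, rfl⟩
  have h2 : Cardinal.lift.{u} #(Set.range f) ≤ Cardinal.lift.{0} #Γ := Cardinal.mk_range_le_lift
  rw [Cardinal.lift_uzero] at h2
  exact absurd (((Cardinal.lift_le.mpr h1).trans h2).trans_lt h) (lt_irrefl _)

theorem guess_once {Γ : Type u} (h : #Γ < Cardinal.lift.{u} nonSN) (b : ℕ → ℕ)
    (x : Γ → ℕ → ℕ) (hx : ∀ γ k, x γ k < 2 ^ b k) :
    ∃ S : ℕ → ℕ, ∀ γ, ∃ k, x γ k = S k := by
  classical
  let s : Γ → ℕ → Bool := fun γ n => (x γ n.unpair.1).testBit n.unpair.2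
  let M : ℕ → ℕ := fun k => ∑ q ∈ Finset.range (b k), Nat.pair k q
  have hM : ∀ k, ∀ q < b k, Nat.pair k q ≤ M k := by
    intro k q hq
    exact Finset.single_le_sum (f := fun q => Nat.pair k q) (fun _ _ => Nat.zero_le _)
      (Finset.mem_range.mpr hq)
  obtain ⟨lo, hi, hlen, hcov⟩ := smz_range h (fun γ => psi (s γ))
    (fun k => (1 / 3 : ℝ) ^ (M k) / 2) (fun k => by positivity)
  refine ⟨fun k => if hk : ∃ γ, psi (s γ) ∈ Set.Icc (lo k) (hi k) then x hk.choose k else 0, ?_⟩
  intro γ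
  obtain ⟨k, hk⟩ := mem_iUnion.mp (hcov ⟨γ, rfl⟩)
  refine ⟨k, ?_⟩
  have hex : ∃ γ, psi (s γ) ∈ Set.Icc (lo k) (hi k) := ⟨γ, hk⟩
  simp only [dif_pos hex]
  have hk' := hex.choose_spec
  set γ' := hex.choose
  have hd : |psi (s γ) - psi (s γ')| < (1 / 3 : ℝ) ^ (M k) / 2 := by
    refine lt_of_le_of_lt ?_ (hlen k)
    simp only at hk
    rw [abs_le]
    constructor <;> linarith [hk.1, hk.2, hk'.1, hk'.2]
  have hag := psi_sep _ _ _ hd
  apply Nat.eq_of_testBit_eq
  intro q
  rcases lt_or_ge q (b k) with hq | hq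
  · have := hag _ (hM k q hq)
    simpa [s, Nat.unpair_pair] using this
  · rw [Nat.testBit_lt_two_pow ((hx γ k).trans_le (Nat.pow_le_pow_right (by norm_num) hq)),
      Nat.testBit_lt_two_pow ((hx γ' k).trans_le (Nat.pow_le_pow_right (by norm_num) hq))]

theorem guess {Γ : Type u} (h : #Γ < Cardinal.lift.{u} nonSN) (P : ℕ → Type)
    [∀ k, Fintype (P k)] [∀ k, Inhabited (P k)] (x : Γ → ∀ k, P k) :
    ∃ S : ∀ k, P k, ∀ γ, ∀ m, ∃ k, m ≤ k ∧ x γ k = S k := by
  classical
  let enc : ∀ k, P k → ℕ := fun k p => (Fintype.equivFin (P k) p : ℕ)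
  have henc : ∀ k, Function.Injective (enc k) := by
    intro k p q hpq
    exact (Fintype.equivFin (P k)).injective (Fin.ext hpq)
  have hb : ∀ k (p : P k), enc k p < 2 ^ (Fintype.card (P k)) := fun k p =>
    (Fintype.equivFin (P k) p).isLt.trans (Nat.lt_two_pow_self)
  have h1 : ∀ m : ℕ, ∃ S : ℕ → ℕ, ∀ γ, ∃ i, enc _ (x γ (Nat.pair m i)) = S i := fun m =>
    guess_once h (fun i => Fintype.card (P (Nat.pair m i)))
      (fun γ i => enc _ (x γ (Nat.pair m i))) (fun γ i => hb _ _)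
  choose S hS using h1
  refine ⟨fun k => if hk : ∃ p : P k, enc k p = S k.unpair.1 k.unpair.2 then hk.choose
    else default, ?_⟩
  intro γ m
  obtain ⟨i, hi⟩ := hS m γ
  refine ⟨Nat.pair m i, Nat.left_le_pair m i, ?_⟩
  have hex : ∃ p : P (Nat.pair m i), enc (Nat.pair m i) p =
      S (Nat.pair m i).unpair.1 (Nat.pair m i).unpair.2 := ⟨x γ (Nat.pair m i), by
    rw [Nat.unpair_pair]; exact hi⟩
  simp only [dif_pos hex]
  apply henc
  rw [hex.choose_spec, Nat.unpair_pair]
  exact hi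

/-! ## Part A: analysis -/

theorem tendsto_weak {X : Type u} [NormedAddCommGroup X] [NormedSpace ℝ X] {α : Type*}
    {l : Filter α} {g : α → X} {x : X}
    (h : ∀ φ : X →L[ℝ] ℝ, Tendsto (fun s => φ (g s)) l (𝓝 (φ x))) :
    Tendsto (fun s => toWeakSpace ℝ X (g s)) l (𝓝 (toWeakSpace ℝ X x)) := by
  have hind : Topology.IsInducing (fun (x : WeakSpace ℝ X) (φ : X →L[ℝ] ℝ) =>
    (topDualPairing ℝ X).flip x φ) := ⟨rfl⟩
  rw [hind.tendsto_nhds_iff, tendsto_pi_nhds]
  exact h

/-- bounded and coordinatewise continuous implies weakly continuous -/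
theorem weak_cont {Γ : Type u} (f : unitInterval → H Γ) (C : ℝ) (hC : ∀ t, ‖f t‖ ≤ C)
    (t : unitInterval) (hcoord : ∀ γ : Γ, ContinuousAt (fun s => (f s : Γ → ℝ) γ) t) :
    ContinuousAt (fun s => toWeakSpace ℝ (H Γ) (f s)) t := by
  classical
  apply tendsto_weak
  intro φ
  obtain ⟨y, hy⟩ := (InnerProductSpace.toDual ℝ (H Γ)).surjective φ
  have hφ : ∀ v, φ v = inner ℝ y v := by
    intro v; rw [← hy]; rfl
  have hC0 : 0 ≤ C := (norm_nonneg _).trans (hC t)
  rw [Metric.tendsto_nhds]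
  intro ε hε
  have hs := lp.hasSum_single (E := fun _ : Γ => ℝ) (p := 2) (by norm_num) y
  rw [HasSum, SummationFilter.unconditional_filter, Metric.tendsto_atTop] at hs
  obtain ⟨T, hT⟩ := hs (ε / (2 * (2 * C + 1))) (by positivity)
  have hT' := hT T le_rfl
  rw [dist_eq_norm] at hT'
  set yT : H Γ := ∑ i ∈ T, lp.single 2 i (y i) with hyT
  have hfin : ∀ v : H Γ, inner ℝ yT v = ∑ i ∈ T, (y i) * (v : Γ → ℝ) i := by
    intro v
    rw [hyT, sum_inner]
    apply Finset.sum_congr rfl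
    intro i _
    rw [lp.inner_single_left]
    simp [mul_comm]
  have hcont : Tendsto (fun s => inner ℝ yT (f s)) (𝓝 t) (𝓝 (inner ℝ yT (f t))) := by
    simp_rw [hfin]
    apply tendsto_finsetSum
    intro i _
    exact (hcoord i).tendsto.const_mul (y i)
  rw [Metric.tendsto_nhds] at hcont
  filter_upwards [hcont (ε / 2) (by positivity)] with s hs
  rw [Real.dist_eq] at hs ⊢
  rw [hφ, hφ]
  have e1 : inner ℝ y (f s) - inner ℝ y (f t)
      = (inner ℝ yT (f s) - inner ℝ yT (f t)) - inner ℝ (yT - y) (f s - f t) := by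
    rw [inner_sub_left, inner_sub_right, inner_sub_right]; ring
  have e2 : |inner ℝ (yT - y) (f s - f t)| ≤ ε / 2 := by
    refine (abs_real_inner_le_norm _ _).trans ?_
    have h1 : ‖f s - f t‖ ≤ 2 * C := by
      refine (norm_sub_le _ _).trans ?_
      linarith [hC s, hC t]
    calc ‖yT - y‖ * ‖f s - f t‖ ≤ (ε / (2 * (2 * C + 1))) * (2 * C) :=
          mul_le_mul hT'.le h1 (norm_nonneg _) (by positivity)
      _ ≤ ε / 2 := by
          rw [div_mul_eq_mul_div, div_le_div_iff₀ (by positivity) (by norm_num)]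
          nlinarith
  rw [e1]
  refine lt_of_le_of_lt (abs_sub _ _) ?_
  linarith

/-- `s` lies in the `j`-th of `N` equal intervals -/
def InCell (N j : ℕ) (s : ℝ) : Prop := (j : ℝ) / N ≤ s ∧ s ≤ ((j : ℝ) + 1) / N

theorem grid_close {X : Type u} [NormedAddCommGroup X] [NormedSpace ℝ X]
    {f : unitInterval → X} {x : X} (hf : HasRiemannIntegral f x) (ε : ℝ) (hε : 0 < ε) :
    ∃ N₀ : ℕ, 0 < N₀ ∧ ∀ N, N₀ ≤ N → ∀ s t : ℕ → unitInterval,
      (∀ j < N, InCell N j (s j) ∧ InCell N j (t j)) →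
      ‖∑ j ∈ Finset.range N, (1 / (N : ℝ)) • (f (s j) - f (t j))‖ < ε := by
  obtain ⟨δ, hδ, h⟩ := hf (ε / 2) (by positivity)
  obtain ⟨N₀, hN₀⟩ := exists_nat_gt (1 / δ)
  have hN₀' : (0 : ℝ) < N₀ := lt_trans (by positivity) hN₀
  refine ⟨N₀, by exact_mod_cast hN₀', ?_⟩
  intro N hN s t hst
  have hNpos : (0 : ℝ) < N := lt_of_lt_of_le hN₀' (by exact_mod_cast hN)
  have hmesh : (1 : ℝ) / N < δ := by
    rw [div_lt_iff₀ hNpos]
    rw [div_lt_iff₀ hδ] at hN₀
    have : (N₀ : ℝ) ≤ N := by exact_mod_cast hN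
    nlinarith
  have key : ∀ u : ℕ → unitInterval, (∀ j < N, InCell N j (u j)) →
      ‖(∑ j ∈ Finset.range N, (1 / (N : ℝ)) • f (u j)) - x‖ < ε / 2 := by
    intro u hu
    have h1 := h N (fun j => (j : ℝ) / N) u (by simp) (by field_simp) (by
      intro j hj
      have := hu j hj
      refine ⟨this.1, ?_, ?_⟩
      · push_cast; exact this.2
      · push_cast; rw [← sub_div, add_sub_cancel_left]; exact hmesh)
    have h2 : ∀ j : ℕ, (((j + 1 : ℕ) : ℝ) / N - (j : ℝ) / N) = 1 / N := by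
      intro j; push_cast; rw [← sub_div, add_sub_cancel_left]
    simpa only [h2] using h1
  have h1 := key s (fun j hj => (hst j hj).1)
  have h2 := key t (fun j hj => (hst j hj).2)
  have h3 : ∑ j ∈ Finset.range N, (1 / (N : ℝ)) • (f (s j) - f (t j))
      = ((∑ j ∈ Finset.range N, (1 / (N : ℝ)) • f (s j)) - x)
        - ((∑ j ∈ Finset.range N, (1 / (N : ℝ)) • f (t j)) - x) := by
    simp_rw [smul_sub]
    rw [Finset.sum_sub_distrib]; abel
  rw [h3]
  refine (norm_sub_le _ _).trans_lt ?_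
  linarith

/-- base points of the cells -/
noncomputable def base (N j : ℕ) : unitInterval := Set.projIcc 0 1 zero_le_one ((j : ℝ) / N)

theorem base_mem (N j : ℕ) (hj : j < N) : InCell N j (base N j) := by
  have hN : (0 : ℝ) < N := by
    have : 0 < N := by omega
    exact_mod_cast this
  have h : ((base N j : unitInterval) : ℝ) = (j : ℝ) / N := by
    unfold base
    rw [Set.projIcc_of_mem zero_le_one (x := (j : ℝ) / N)]
    constructor
    · positivity
    · rw [div_le_one hN]; exact_mod_cast hj.le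
  rw [InCell, h]
  refine ⟨le_rfl, ?_⟩
  gcongr
  linarith

theorem exists_cell (N : ℕ) (hN : 0 < N) (s : unitInterval) : ∃ j < N, InCell N j s := by
  have hN' : (0 : ℝ) < N := by exact_mod_cast hN
  have h0 : 0 ≤ (s : ℝ) * N := mul_nonneg s.2.1 hN'.le
  rcases lt_or_ge ⌊(s : ℝ) * N⌋₊ N with h | h
  · refine ⟨_, h, ?_, ?_⟩
    · rw [div_le_iff₀ hN']; exact Nat.floor_le h0
    · rw [le_div_iff₀ hN']; exact (Nat.lt_floor_add_one _).le
  · have h1 : (N : ℝ) ≤ (s : ℝ) * N := le_trans (by exact_mod_cast h) (Nat.floor_le h0)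
    have h2 : (s : ℝ) = 1 := le_antisymm s.2.2 (by nlinarith)
    refine ⟨N - 1, by omega, ?_, ?_⟩
    · rw [h2, Nat.cast_sub (by omega), div_le_iff₀ hN']; push_cast; linarith
    · rw [h2, Nat.cast_sub (by omega), le_div_iff₀ hN']; push_cast; linarith

/-- Riemann integrable functions are bounded -/
theorem bounded_of_integrable {X : Type u} [NormedAddCommGroup X] [NormedSpace ℝ X]
    {f : unitInterval → X} {x : X} (hf : HasRiemannIntegral f x) : ∃ C : ℝ, ∀ t, ‖f t‖ ≤ C := by
  classical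
  obtain ⟨N, hN, h⟩ := grid_close hf 1 one_pos
  have hN' : (0 : ℝ) < N := by exact_mod_cast hN
  refine ⟨N + ∑ j ∈ Finset.range N, ‖f (base N j)‖, fun t => ?_⟩
  obtain ⟨j, hj, hjt⟩ := exists_cell N hN t
  have h1 := h N le_rfl (fun i => if i = j then t else base N i) (base N) (by
    intro i hi
    refine ⟨?_, base_mem N i hi⟩
    split_ifs with hij
    · rw [hij]; exact hjt
    · exact base_mem N i hi)
  rw [Finset.sum_eq_single j] at h1
  · simp only [if_true] at h1
    rw [norm_smul, Real.norm_of_nonneg (by positivity), one_div, inv_mul_lt_iff₀ hN',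
      mul_one] at h1
    have h2 : ‖f t‖ ≤ ‖f t - f (base N j)‖ + ‖f (base N j)‖ := by
      simpa using norm_add_le (f t - f (base N j)) (f (base N j))
    have h3 : ‖f (base N j)‖ ≤ ∑ j ∈ Finset.range N, ‖f (base N j)‖ :=
      Finset.single_le_sum (f := fun j => ‖f (base N j)‖) (fun _ _ => norm_nonneg _)
        (Finset.mem_range.mpr hj)
    linarith
  · intro i _ hij
    simp [hij]
  · intro hj'; exact absurd (Finset.mem_range.mpr hj) hj'

open Classical in
/-- cells on which the coordinate `γ` oscillates by more than `1/(n+1)` -/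
noncomputable def Osc {Γ : Type u} (f : unitInterval → H Γ) (γ : Γ) (n N : ℕ) : Finset (Fin N) :=
  Finset.univ.filter (fun j => ∃ s t : unitInterval, InCell N j s ∧ InCell N j t ∧
    1 / ((n : ℝ) + 1) < (f s : Γ → ℝ) γ - (f t : Γ → ℝ) γ)

theorem card_Osc {Γ : Type u} (f : unitInterval → H Γ) (γ : Γ) (n N : ℕ) (ε : ℝ)
    (hN : 0 < N)
    (h : ∀ s t : ℕ → unitInterval, (∀ j < N, InCell N j (s j) ∧ InCell N j (t j)) →
      ‖∑ j ∈ Finset.range N, (1 / (N : ℝ)) • (f (s j) - f (t j))‖ < ε) :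
    ((Osc f γ n N).card : ℝ) ≤ ε * (n + 1) * N := by
  classical
  have hN' : (0 : ℝ) < N := by exact_mod_cast hN
  let s : ℕ → unitInterval := fun j => if hj : ∃ s t : unitInterval, InCell N j s ∧ InCell N j t ∧
    1 / ((n : ℝ) + 1) < (f s : Γ → ℝ) γ - (f t : Γ → ℝ) γ then hj.choose else base N j
  let t : ℕ → unitInterval := fun j => if hj : ∃ s t : unitInterval, InCell N j s ∧ InCell N j t ∧
    1 / ((n : ℝ) + 1) < (f s : Γ → ℝ) γ - (f t : Γ → ℝ) γ then hj.choose_spec.choose else base N j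
  have h1 := h s t (by
    intro j hj
    simp only [s, t]
    split_ifs with hex
    · exact ⟨hex.choose_spec.choose_spec.1, hex.choose_spec.choose_spec.2.1⟩
    · exact ⟨base_mem N j hj, base_mem N j hj⟩)
  set v := ∑ j ∈ Finset.range N, (1 / (N : ℝ)) • (f (s j) - f (t j)) with hv
  have h2 : |(v : Γ → ℝ) γ| ≤ ‖v‖ := by
    have := lp.norm_apply_le_norm (p := 2) (by norm_num) v γ
    rwa [Real.norm_eq_abs] at this
  have h3 : (v : Γ → ℝ) γ = ∑ j ∈ Finset.range N,
      (1 / (N : ℝ)) * ((f (s j) : Γ → ℝ) γ - (f (t j) : Γ → ℝ) γ) := by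
    rw [hv, lp.coeFn_sum, Finset.sum_apply]
    rfl
  have h4 : ((Osc f γ n N).card : ℝ) * (1 / (N : ℝ) * (1 / ((n : ℝ) + 1))) ≤ (v : Γ → ℝ) γ := by
    rw [h3, ← Fin.sum_univ_eq_sum_range (fun j => (1 / (N : ℝ)) *
      ((f (s j) : Γ → ℝ) γ - (f (t j) : Γ → ℝ) γ)) N]
    calc ((Osc f γ n N).card : ℝ) * (1 / (N : ℝ) * (1 / ((n : ℝ) + 1)))
        = ∑ j ∈ Osc f γ n N, (1 / (N : ℝ) * (1 / ((n : ℝ) + 1))) := by
          rw [Finset.sum_const, nsmul_eq_mul]
      _ ≤ ∑ j ∈ Osc f γ n N, (1 / (N : ℝ)) *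
          ((f (s j) : Γ → ℝ) γ - (f (t j) : Γ → ℝ) γ) := by
          apply Finset.sum_le_sum
          intro j hj
          apply mul_le_mul_of_nonneg_left _ (by positivity)
          have hex := (Finset.mem_filter.mp hj).2
          simp only [s, t, dif_pos hex]
          exact hex.choose_spec.choose_spec.2.2.le
      _ ≤ ∑ j : Fin N, (1 / (N : ℝ)) *
          ((f (s j) : Γ → ℝ) γ - (f (t j) : Γ → ℝ) γ) := by
          apply Finset.sum_le_sum_of_subset_of_nonneg (Finset.subset_univ _)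
          intro j _ hj
          apply mul_nonneg (by positivity)
          simp only [s, t]
          split_ifs with hex
          · have := hex.choose_spec.choose_spec.2.2
            have hp : (0 : ℝ) < 1 / ((n : ℝ) + 1) := by positivity
            linarith
          · simp
  have h5 : ((Osc f γ n N).card : ℝ) * (1 / (N : ℝ) * (1 / ((n : ℝ) + 1))) < ε :=
    (h4.trans ((le_abs_self _).trans h2)).trans_lt h1
  have hn : (0 : ℝ) < (n : ℝ) + 1 := by positivity
  rw [one_div_mul_one_div, mul_one_div, div_lt_iff₀ (by positivity)] at h5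
  linarith

/-- The exceptional null set for oscillation `1/(n+1)`. -/
theorem osc_ae {Γ : Type u} (h : #Γ < Cardinal.lift.{u} nonSN) (f : unitInterval → H Γ) (x : H Γ)
    (hf : HasRiemannIntegral f x) (n : ℕ) :
    ∀ᵐ z : ℝ, ∀ γ : Γ, ∃ N : ℕ, 0 < N ∧ ∀ j : Fin N, InCell N j z → j ∉ Osc f γ n N := by
  classical
  have hN : ∀ k : ℕ, ∃ N : ℕ, 0 < N ∧ ∀ γ : Γ, ((Osc f γ n N).card : ℝ) ≤ (1 / 4) ^ k * N := by
    intro k
    obtain ⟨N, hN, hN2⟩ := grid_close hf ((1 / 4) ^ k / (n + 1)) (by positivity)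
    refine ⟨N, hN, fun γ => ?_⟩
    have := card_Osc f γ n N ((1 / 4) ^ k / (n + 1)) hN (hN2 N le_rfl)
    have hn : (0 : ℝ) < (n : ℝ) + 1 := by positivity
    rwa [div_mul_cancel₀ _ hn.ne'] at this
  choose N hN0 hN1 using hN
  obtain ⟨S, hS⟩ := guess h (fun k => Finset (Fin (N k))) (fun γ k => Osc f γ n (N k))
  let V : ℕ → Set ℝ := fun k => if ((S k).card : ℝ) ≤ (1 / 4) ^ k * N k then
    ⋃ j ∈ S k, Set.Icc (((j : Fin (N k)) : ℝ) / N k) ((((j : Fin (N k)) : ℝ) + 1) / N k) else ∅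
  have hV : ∀ k, volume (V k) ≤ ENNReal.ofReal ((1 / 4) ^ k) := by
    intro k
    simp only [V]
    split_ifs with hk
    · have hNk : (0 : ℝ) < N k := by exact_mod_cast hN0 k
      refine (measure_biUnion_finset_le _ _).trans ?_
      have : ∀ j : Fin (N k), volume (Set.Icc (((j : Fin (N k)) : ℝ) / N k)
          ((((j : Fin (N k)) : ℝ) + 1) / N k)) = ENNReal.ofReal (1 / N k) := by
        intro j; rw [Real.volume_Icc]; congr 1; ring
      simp_rw [this]
      rw [Finset.sum_const, nsmul_eq_mul, ← ENNReal.ofReal_natCast,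
        ← ENNReal.ofReal_mul (Nat.cast_nonneg _)]
      apply ENNReal.ofReal_le_ofReal
      rw [mul_one_div, div_le_iff₀ hNk]
      exact hk
    · simp
  have hsum : ∑' k, volume (V k) ≠ ⊤ := by
    have h1 : ∑' k, volume (V k) ≤ ∑' k : ℕ, ENNReal.ofReal ((1 / 4 : ℝ) ^ k) :=
      ENNReal.tsum_le_tsum hV
    have h3 : ∑' k : ℕ, ENNReal.ofReal ((1 / 4 : ℝ) ^ k) < ⊤ := by
      rw [← ENNReal.ofReal_tsum_of_nonneg (fun n => by positivity)
        (summable_geometric_of_lt_one (by norm_num) (by norm_num))]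
      exact ENNReal.ofReal_lt_top
    exact (h1.trans_lt h3).ne
  filter_upwards [ae_eventually_notMem hsum] with z hz γ
  rw [eventually_atTop] at hz
  obtain ⟨m, hm⟩ := hz
  obtain ⟨k, hk, hk2⟩ := hS γ m
  refine ⟨N k, hN0 k, fun j hj hjO => ?_⟩
  apply hm k hk
  simp only [V]
  rw [← hk2, if_pos (hN1 k γ), mem_iUnion₂]
  exact ⟨j, hjO, hj⟩

theorem coord_cont_ae {Γ : Type u} (h : #Γ < Cardinal.lift.{u} nonSN) (f : unitInterval → H Γ)
    (x : H Γ) (hf : HasRiemannIntegral f x) :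
    ∀ᵐ t : unitInterval, ∀ γ : Γ, ContinuousAt (fun s => (f s : Γ → ℝ) γ) t := by
  classical
  have h1 : ∀ᵐ z : ℝ, Irrational z ∧ ∀ n : ℕ, ∀ γ : Γ, ∃ N : ℕ, 0 < N ∧
      ∀ j : Fin N, InCell N j z → j ∉ Osc f γ n N := by
    have h2 : ∀ᵐ z : ℝ, Irrational z := (Set.countable_range (Rat.cast : ℚ → ℝ)).ae_notMem volume
    have h3 := ae_all_iff.mpr (osc_ae h f x hf)
    filter_upwards [h2, h3] with z hz1 hz2
    exact ⟨hz1, hz2⟩
  have h2 : ∀ᵐ t : unitInterval, Irrational (t : ℝ) ∧ ∀ n : ℕ, ∀ γ : Γ, ∃ N : ℕ, 0 < N ∧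
      ∀ j : Fin N, InCell N j (t : ℝ) → j ∉ Osc f γ n N :=
    (ae_restrict_iff_subtype (s := unitInterval) measurableSet_Icc
      (p := fun z => Irrational z ∧ ∀ n : ℕ, ∀ γ : Γ, ∃ N : ℕ, 0 < N ∧
      ∀ j : Fin N, InCell N j z → j ∉ Osc f γ n N)).mp (ae_restrict_of_ae h1)
  filter_upwards [h2] with t ht γ
  obtain ⟨hirr, hosc⟩ := ht
  rw [Metric.continuousAt_iff]
  intro ε hε
  obtain ⟨n, hn⟩ := exists_nat_one_div_lt hε
  obtain ⟨N, hN, hj⟩ := hosc n γ
  have hN' : (0 : ℝ) < N := by exact_mod_cast hN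
  obtain ⟨j, hjN, hj1, hj2⟩ := exists_cell N hN t
  have hlt1 : (j : ℝ) / N < t := by
    refine lt_of_le_of_ne hj1 (fun heq => ?_)
    apply hirr
    exact ⟨(j : ℚ) / N, by push_cast; exact heq⟩
  have hlt2 : (t : ℝ) < ((j : ℝ) + 1) / N := by
    refine lt_of_le_of_ne hj2 (fun heq => ?_)
    apply hirr
    exact ⟨((j : ℚ) + 1) / N, by push_cast; exact heq.symm⟩
  refine ⟨min (t - (j : ℝ) / N) (((j : ℝ) + 1) / N - t), lt_min (by linarith) (by linarith), ?_⟩
  intro s hs
  rw [Subtype.dist_eq, Real.dist_eq, lt_min_iff, abs_lt, abs_lt] at hs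
  have hsc : InCell N j s := ⟨by linarith [hs.1.1], by linarith [hs.2.2]⟩
  have hno := hj ⟨j, hjN⟩ ⟨hj1, hj2⟩
  by_contra hcon
  push Not at hcon
  rw [Real.dist_eq] at hcon
  apply hno
  rw [Osc, Finset.mem_filter]
  refine ⟨Finset.mem_univ _, ?_⟩
  have hbig : 1 / ((n : ℝ) + 1) < |(f s : Γ → ℝ) γ - (f t : Γ → ℝ) γ| := hn.trans_le hcon
  rcases lt_abs.mp hbig with hb | hb
  · exact ⟨s, t, hsc, ⟨hj1, hj2⟩, hb⟩
  · exact ⟨t, s, ⟨hj1, hj2⟩, hsc, by linarith⟩

/-- The weak Lebesgue property for small `Γ`. -/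
theorem WLP_of_lt (Γ : Type u) (h : #Γ < Cardinal.lift.{u} nonSN) : WLP (H Γ) := by
  rintro f ⟨x, hf⟩
  obtain ⟨C, hC⟩ := bounded_of_integrable hf
  filter_upwards [coord_cont_ae h f x hf] with t ht
  exact weak_cont f C hC t ht

/-! ## Sanity checks on `nonSN` -/

/-- `non(SN)` is at most the continuum. -/
theorem nonSN_le_continuum : nonSN ≤ Cardinal.continuum := by
  have h : nonSN ≤ #(Set.univ : Set ℝ) := csInf_le' ⟨_, not_smz_univ, rfl⟩
  rwa [Cardinal.mk_univ, Cardinal.mk_real] at h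

/-- Countable sets are of strong measure zero, so `non(SN)` is uncountable. -/
theorem smz_of_countable {A : Set ℝ} (hA : A.Countable) : StrongMeasureZero A := by
  rcases A.eq_empty_or_nonempty with rfl | hne
  · exact smz_empty
  · obtain ⟨g, hg⟩ := hA.exists_eq_range hne
    intro ε hε
    refine ⟨g, g, fun n => by rw [sub_self]; exact hε n, ?_⟩
    intro x hx
    rw [hg] at hx
    obtain ⟨n, rfl⟩ := hx
    exact mem_iUnion.mpr ⟨n, le_rfl, le_rfl⟩

theorem aleph0_lt_nonSN : ℵ₀ < nonSN := by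
  obtain ⟨A, hA, hcard⟩ := nonSN_mem
  rw [← hcard]
  by_contra hcon
  exact hA (smz_of_countable (Cardinal.le_aleph0_iff_set_countable.mp (not_lt.mp hcon)))

/-- **Theorem.** `ℓ²(Γ)` has the weak Lebesgue property if and only if the cardinality of `Γ` is
less than `non(SN)`, the least cardinality of a set of reals that is not of strong measure zero. -/
theorem result (Γ : Type u) :
    WLP (lp (fun _ : Γ => ℝ) 2) ↔ #Γ < Cardinal.lift.{u} nonSN := by
  constructor
  · intro h
    by_contra hcon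
    exact not_WLP Γ (not_lt.mp hcon) h
  · exact WLP_of_lt Γ

end Pool.Agent.Results.MP_abad15_an.WLPiffNonSN
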